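import Pool.Agent.Helper5.ET.Defs
import Pool.Agent.Helper27.T4.Fresh

/-!
# T4', block M, piece D: integers in an arc with prescribed components, static pairs
-/

namespace Pool.Agent.Helper33.M

open Finset Pool.Agent.Helper27.T4 Pool.Agent.Helper5.ET

/-- integers in an interval of length `L` with prescribed components outside `R` -/
theorem arc_fixed (a : Fin 3 → ℕ) (R : Finset (Fin 3)) (c : ∀ f, ZMod (pr f ^ a f)) (m L : ℕ)
    (T : Finset ℕ) (hT : ∀ y ∈ T, y ≤ m ∧ m < y + L)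
    (hc : ∀ y ∈ T, ∀ f, f ∉ R → ((y : ℕ) : ZMod (pr f ^ a f)) = c f) :
    T.card ≤ L / NN pr (fx a R) + 1 := by
  refine card_class_le (NN pr (fx a R)) (m + 1 - L) L T ?_ ?_
  · intro y hy
    obtain ⟨h1, h2⟩ := hT y hy
    omega
  · intro y hy z hz
    rw [← ZMod.natCast_eq_natCast_iff, natCast_eq_iff pr_prime pr_inj]
    intro f
    by_cases hf : f ∈ R
    · have h0 : fx a R f = 0 := by simp [fx, hf]
      have : Subsingleton (ZMod (pr f ^ fx a R f)) := by
        rw [h0, pow_zero]; infer_instance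
      exact Subsingleton.elim _ _
    · have h0 : fx a R f = a f := by simp [fx, hf]
      rw [h0, hc y hy f hf, hc z hz f hf]

/-- real form -/
theorem arc_fixed_real (a : Fin 3 → ℕ) (R : Finset (Fin 3)) (c : ∀ f, ZMod (pr f ^ a f))
    (m L : ℕ) (T : Finset ℕ) (hT : ∀ y ∈ T, y ≤ m ∧ m < y + L)
    (hc : ∀ y ∈ T, ∀ f, f ∉ R → ((y : ℕ) : ZMod (pr f ^ a f)) = c f) :
    (T.card : ℝ) ≤ MM pr a R * ((L : ℝ) / NN pr a + 1 / MM pr a R) := by
  have h := arc_fixed a R c m L T hT hc
  have hM : (0 : ℝ) < MM pr a R := by exact_mod_cast MM_pos pr_prime a R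
  have hdpos : (0 : ℝ) < NN pr (fx a R) := by exact_mod_cast NN_pos pr_prime _
  have h3 : (NN pr (fx a R) : ℝ) * MM pr a R = NN pr a := by exact_mod_cast NN_fx_mul a R
  have h2 : (T.card : ℝ) ≤ L / NN pr (fx a R) + 1 := by
    calc (T.card : ℝ) ≤ ((L / NN pr (fx a R) + 1 : ℕ) : ℝ) := by exact_mod_cast h
      _ ≤ (L : ℝ) / NN pr (fx a R) + 1 := by
          push_cast
          have := @Nat.cast_div_le ℝ _ _ _ L (NN pr (fx a R))
          linarith
  refine h2.trans (le_of_eq ?_)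
  rw [← h3]
  field_simp

/-- the admissible values at one prime -/
theorem card_sq_le (p M : ℕ) :
    ((range M).filter (fun y => y.Prime ∧ y.Coprime p ∧ y ^ 2 < M)).card ≤ Nat.sqrt M := by
  have h : ((range M).filter (fun y => y.Prime ∧ y.Coprime p ∧ y ^ 2 < M)) ⊆
      Finset.Ico 1 (Nat.sqrt M + 1) := by
    intro y hy
    rw [Finset.mem_filter] at hy
    obtain ⟨-, h1, -, h2⟩ := hy
    rw [Finset.mem_Ico]
    refine ⟨h1.pos, ?_⟩
    have : y ≤ Nat.sqrt M := by
      rw [Nat.le_sqrt']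
      exact h2.le
    omega
  refine (Finset.card_le_card h).trans ?_
  simp

/-- number of admissible triples with fixed components outside `R` -/
theorem card_XX_fixed (s : ℕ) (R : Finset (Fin 3)) (x0 : Fin 3 → ℕ) (T : Finset (Fin 3 → ℕ))
    (hT : T ⊆ XX s) (h0 : ∀ x ∈ T, ∀ f, f ∉ R → x f = x0 f) :
    T.card ≤ ∏ f ∈ R, Nat.sqrt (pr f ^ cnt f (sl s)) := by
  classical
  have h1 : T ⊆ Fintype.piFinset (fun f => if f ∈ R then
      (range (pr f ^ cnt f (sl s))).filter
        (fun y => y.Prime ∧ y.Coprime (pr f) ∧ y ^ 2 < pr f ^ cnt f (sl s)) else {x0 f}) := by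
    intro x hx
    rw [Fintype.mem_piFinset]
    intro f
    by_cases hf : f ∈ R
    · rw [if_pos hf]
      have := hT hx
      rw [XX, Fintype.mem_piFinset] at this
      exact this f
    · rw [if_neg hf, Finset.mem_singleton]
      exact h0 x hx f hf
  refine (Finset.card_le_card h1).trans ?_
  rw [Fintype.card_piFinset, ← Finset.prod_mul_prod_compl R]
  have h2 : ∏ f ∈ Rᶜ, (if f ∈ R then
      (range (pr f ^ cnt f (sl s))).filter
        (fun y => y.Prime ∧ y.Coprime (pr f) ∧ y ^ 2 < pr f ^ cnt f (sl s))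
        else ({x0 f} : Finset ℕ)).card = 1 := by
    apply Finset.prod_eq_one
    intro f hf
    rw [Finset.mem_compl] at hf
    rw [if_neg hf, Finset.card_singleton]
  rw [h2, mul_one]
  apply Finset.prod_le_prod'
  intro f hf
  rw [if_pos hf]
  exact card_sq_le _ _

/-- pairs of admissible triples with fixed components outside a static set `R` -/
theorem card_pairs_fixed (s s' : ℕ) (R : Finset (Fin 3))
    (hst : ∀ f ∈ R, cnt f (sl s) = cnt f (sl s')) (x0 x0' : Fin 3 → ℕ)
    (T : Finset ((Fin 3 → ℕ) × (Fin 3 → ℕ))) (hT : ∀ q ∈ T, q.1 ∈ XX s ∧ q.2 ∈ XX s')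
    (h0 : ∀ q ∈ T, ∀ f, f ∉ R → q.1 f = x0 f ∧ q.2 f = x0' f) :
    T.card ≤ ∏ f ∈ R, pr f ^ cnt f (sl s') := by
  classical
  have h1 : T ⊆ (T.image Prod.fst) ×ˢ (T.image Prod.snd) := by
    intro q hq
    rw [Finset.mem_product]
    exact ⟨Finset.mem_image_of_mem _ hq, Finset.mem_image_of_mem _ hq⟩
  refine (Finset.card_le_card h1).trans ?_
  rw [Finset.card_product]
  have h2 := card_XX_fixed s R x0 (T.image Prod.fst) (by
    intro x hx
    rw [Finset.mem_image] at hx
    obtain ⟨q, hq, rfl⟩ := hx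
    exact (hT q hq).1) (by
    intro x hx f hf
    rw [Finset.mem_image] at hx
    obtain ⟨q, hq, rfl⟩ := hx
    exact (h0 q hq f hf).1)
  have h3 := card_XX_fixed s' R x0' (T.image Prod.snd) (by
    intro x hx
    rw [Finset.mem_image] at hx
    obtain ⟨q, hq, rfl⟩ := hx
    exact (hT q hq).2) (by
    intro x hx f hf
    rw [Finset.mem_image] at hx
    obtain ⟨q, hq, rfl⟩ := hx
    exact (h0 q hq f hf).2)
  refine (Nat.mul_le_mul h2 h3).trans ?_
  rw [← Finset.prod_mul_distrib]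
  apply Finset.prod_le_prod'
  intro f hf
  rw [hst f hf]
  exact Nat.sqrt_le (pr f ^ cnt f (sl s'))

end Pool.Agent.Helper33.M
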