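import Pool.Agent.Helper33.M.Arc
import Pool.Agent.Helper3.M.Defs
import Pool.Agent.Helper8.MB.Defs

/-!
# T4', block M, piece D: basic facts
-/

namespace Pool.Agent.Helper33.MD

open Finset Pool.Agent.Helper27.T4 Pool.Agent.Helper5.ET Pool.Agent.Helper3.M Pool.Agent.Helper33.M
open Pool.Agent.Helper8.MB (Cand codeH Eqn hval Rng YY cnt_mono)

variable {s s' b : ℕ} {f1 f0 : Fin 3}

theorem tau_mono : Monotone tau := monotone_nat_of_le_succ (fun c => by
  rw [tau]
  exact Nat.le_add_right _ _)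

theorem sl_le_se (s : ℕ) : sl s ≤ se s := tau_mono (by omega)

theorem sl_mono {s s' : ℕ} (h : s' ≤ s) : sl s' ≤ sl s := tau_mono (by omega)

theorem se_mono {s s' : ℕ} (h : s' + 2 ≤ s) : se s' ≤ se s := tau_mono (by omega)

theorem Nj_pos (y : ℕ) : 0 < Nj y := NN_pos pr_prime _

theorem Nj_mono {y z : ℕ} (h : y ≤ z) : Nj y ≤ Nj z :=
  Nat.le_of_dvd (Nj_pos z) (NN_dvd pr (fun f => cnt_mono f h))

theorem Nj_dvd {y z : ℕ} (h : y ≤ z) : Nj y ∣ Nj z := NN_dvd pr (fun f => cnt_mono f h)

/-- the static families -/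
theorem stat_sl (h : Meso s s' b f1 f0) {f : Fin 3} (hf : f ∈ RR' s s') :
    cnt f (sl s) = cnt f (sl s') := by
  have h1 := h.statR f hf
  have hss := h.hss
  have h2 : cnt f (sl s) ≤ cnt f (se s) := cnt_mono f (sl_le_se s)
  have h3 : cnt f (sl s') ≤ cnt f (sl s) := cnt_mono f (sl_mono (by omega))
  omega

theorem stat_se (h : Meso s s' b f1 f0) {f : Fin 3} (hf : f ∈ RR' s s') :
    cnt f (se s') = cnt f (sl s') := by
  have h1 := h.statR f hf
  have hss := h.hss
  have h2 : cnt f (se s') ≤ cnt f (se s) := cnt_mono f (se_mono hss)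
  have h3 : cnt f (sl s') ≤ cnt f (se s') := cnt_mono f (sl_le_se s')
  omega

/-- a family which grows has a digit -/
theorem exists_digit {f : Fin 3} {y z : ℕ} (h : cnt f y < cnt f z) :
    ∃ t, y ≤ t ∧ t < z ∧ own t = f := by
  by_contra hcon
  push Not at hcon
  have : cnt f z ≤ cnt f y := by
    refine Finset.card_le_card ?_
    intro t ht
    rw [Finset.mem_filter, Finset.mem_range] at ht ⊢
    refine ⟨?_, ht.2⟩
    by_contra hlt
    exact hcon t (by omega) ht.1 ht.2
  omega

/-- a digit makes the family grow -/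
theorem grow_of_digit {f : Fin 3} {y z t : ℕ} (h1 : y ≤ t) (h2 : t < z) (h3 : own t = f) :
    cnt f y < cnt f z := by
  refine Finset.card_lt_card ?_
  rw [Finset.ssubset_iff_of_subset (Finset.filter_subset_filter _
    (Finset.range_subset_range.mpr (by omega)))]
  refine ⟨t, ?_, ?_⟩
  · rw [Finset.mem_filter, Finset.mem_range]
    exact ⟨h2, h3⟩
  · rw [Finset.mem_filter, Finset.mem_range]
    intro h
    omega

theorem f1_mem (h : Meso s s' b f1 f0) : f1 ∈ Pg s s' := by
  rw [Pg, Finset.mem_filter]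
  exact ⟨Finset.mem_univ _, grow_of_digit le_rfl (lt_of_lt_of_le h.lb h.bl)
    (h.own1 _ le_rfl h.lb)⟩

theorem f1_not_mem (h : Meso s s' b f1 f0) : f1 ∉ RR' s s' := by
  rw [RR', Finset.mem_filter]
  intro hf
  exact hf.2.1 (f1_mem h)

/-- a growing family is `f1` or, if `b < l`, the family `f0` -/
theorem Pg_cases (h : Meso s s' b f1 f0) {f : Fin 3} (hf : f ∈ Pg s s') :
    f = f1 ∨ (f = f0 ∧ b < sl s) := by
  rw [Pg, Finset.mem_filter] at hf
  obtain ⟨t, h1, h2, h3⟩ := exists_digit hf.2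
  rcases Nat.lt_or_ge t b with hb | hb
  · left
    rw [← h3]
    exact h.own1 t h1 hb
  · right
    exact ⟨by rw [← h3]; exact h.own0 t hb h2, lt_of_le_of_lt hb h2⟩

/-- the families which hash a family off `RR'` are off `RR'` and different from `f1` -/
theorem pre_off (h : Meso s s' b f1 f0) {f : Fin 3} (hf : f ∉ RR' s s') {g : Fin 3}
    (hg : g ∈ pre (sl s) f ∪ pre (sl s') f) : g ∉ RR' s s' ∧ g ≠ f1 := by
  refine ⟨h.off f hf g hg, ?_⟩
  rintro rfl
  have hP := f1_mem h
  by_cases hfP : f ∈ Pg s s'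
  · have hr := h.rank f g hg
    rcases Pg_cases h hfP with h1 | ⟨h1, h2⟩
    · rw [h1] at hr
      omega
    · have := h.rank01 h2
      rw [h1] at hr
      omega
  · have h1 : Disjoint (pre (sl s') f) (Pg s s') := by
      by_contra hd
      apply hf
      rw [RR', Finset.mem_filter]
      exact ⟨Finset.mem_univ _, hfP, hd⟩
    have h2 : Disjoint (pre (sl s) f) (Pg s s') := by
      by_contra hd
      apply hf
      apply h.sub
      rw [RR, Finset.mem_filter]
      exact ⟨Finset.mem_univ _, hfP, hd⟩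
    rw [Finset.mem_union] at hg
    rcases hg with hg | hg
    · exact Finset.disjoint_left.mp h2 hg hP
    · exact Finset.disjoint_left.mp h1 hg hP

/-- the masks depend only on the coordinates in the set -/
theorem mask_congr {P : Finset (Fin 3)} {x y : Fin 3 → ℕ} (h : ∀ g ∈ P, x g = y g) :
    mask P x = mask P y := by
  funext g
  unfold mask
  split_ifs with hg
  · exact h g hg
  · rfl

end Pool.Agent.Helper33.MD
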