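import Pool.Agent.Helper33.M.Base

/-!
# T4', block M, piece D2: the number of candidates with a solution
-/

namespace Pool.Agent.Helper33.MD

open Finset Pool.Agent.Helper27.T4 Pool.Agent.Helper5.ET Pool.Agent.Helper3.M Pool.Agent.Helper33.M
  Pool.Agent.Helper3.T4
open Pool.Agent.Helper8.MB (Cand codeH Eqn hval Rng YY cnt_mono comp_eq_low codeH_lt)

variable {s s' b : ℕ} {f1 f0 : Fin 3}

/-- counting family by family, without decidability -/
theorem card_le_prod_rank {ι α : Type*} [Fintype ι] [DecidableEq ι] [DecidableEq α]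
    (rk : ι → ℕ) (B : ι → ℕ) (S : Finset (ι → α))
    (h : ∀ f, ∀ g ∈ S, ∀ T : Finset α, (∀ z ∈ T, ∃ g' ∈ S, (∀ i, rk i < rk f → g' i = g i) ∧
      z = g' f) → T.card ≤ B f) : S.card ≤ ∏ f, B f := by
  refine card_le_prod_of_rank rk B S (fun f g hg => h f g hg _ ?_)
  intro z hz
  rw [Finset.mem_image] at hz
  obtain ⟨g', hg', rfl⟩ := hz
  rw [Finset.mem_filter] at hg'
  exact ⟨g', hg'.1, hg'.2, rfl⟩

theorem pr_le (f : Fin 3) : pr f - 1 ≤ 1000036 := by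
  fin_cases f <;> simp [pr]

/-- the coordinates off `RR'` and `f1` -/
def dk (s s' : ℕ) (f1 : Fin 3) (q : Hit) : Fin 3 → ℕ × ℕ :=
  fun f => if f ∈ RR' s s' ∨ f = f1 then (0, 0) else (q.1.1 f, q.2.1 f)

theorem mem_XX' {s : ℕ} {x : Fin 3 → ℕ} (hx : x ∈ XX s) (f : Fin 3) :
    (x f).Prime ∧ (x f).Coprime (pr f) ∧ (x f) ^ 2 < pr f ^ cnt f (sl s) :=
  Pool.Agent.Helper8.MB.mem_XX hx f

/-- the equation in a component off `RR'` -/
theorem comp_low (h : Meso s s' b f1 f0) (w0 : Key → ℕ) (n : ℕ) (q : Hit) (r r' : Fin 3 → ℕ)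
    (hx : q.1.1 ∈ XX s) (hx' : q.2.1 ∈ XX s')
    (hE : Eqn s s' n (hval s w0 (RR s s') r q.1.1) (hval s' w0 (RR' s s') r' q.2.1) q)
    (f : Fin 3) (hf : f ∉ RR' s s') :
    Lg (pr f) (cnt f (sl s')) (q.1.1 f) + Lg (pr f) (cnt f (sl s')) (q.2.1 f) =
      ((n : ℕ) : ZMod (pr f ^ cnt f (sl s'))) -
        ((w0 (s, f.val, mask (pre (sl s) f) q.1.1) : ℕ) : ZMod (pr f ^ cnt f (sl s'))) -
        ((w0 (s', f.val, mask (pre (sl s') f) q.2.1) : ℕ) : ZMod (pr f ^ cnt f (sl s'))) := by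
  have hss := h.hss
  have h1 : cnt f (sl s') ≤ cnt f (sl s) := cnt_mono f (sl_mono (by omega))
  have h2 : cnt f (sl s) ≤ cnt f (se s) := cnt_mono f (sl_le_se s)
  have h3 : cnt f (sl s') ≤ cnt f (se s') := cnt_mono f (sl_le_se s')
  have h4 := comp_eq_low hE f (cnt f (sl s')) (h1.trans h2) h3 h1 le_rfl
    (mem_XX' hx f).2.1 (mem_XX' hx' f).2.1
  have hf2 : f ∉ RR s s' := fun hh => hf (h.sub hh)
  rw [h4]
  simp only [hval, if_neg hf, if_neg hf2, hv]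

/-- masks are determined by `dk` -/
theorem mask_dk (h : Meso s s' b f1 f0) {f : Fin 3} (hf : f ∉ RR' s s') (q : Hit) :
    mask (pre (sl s) f) q.1.1 = mask (pre (sl s) f) (fun j => (dk s s' f1 q j).1) ∧
    mask (pre (sl s') f) q.2.1 = mask (pre (sl s') f) (fun j => (dk s s' f1 q j).2) := by
  constructor
  · refine mask_congr (fun g hg => ?_)
    obtain ⟨h1, h2⟩ := pre_off h hf (Finset.mem_union_left _ hg)
    simp only [dk, h1, h2, or_self, if_false]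
  · refine mask_congr (fun g hg => ?_)
    obtain ⟨h1, h2⟩ := pre_off h hf (Finset.mem_union_right _ hg)
    simp only [dk, h1, h2, or_self, if_false]

/-- number of values of `dk` -/
theorem card_dk (h : Meso s s' b f1 f0) (w0 : Key → ℕ) (n : ℕ) (T : Finset Hit)
    (hT : ∀ q ∈ T, q.1.1 ∈ XX s ∧ q.2.1 ∈ XX s' ∧
      ∃ r r', Eqn s s' n (hval s w0 (RR s s') r q.1.1) (hval s' w0 (RR' s s') r' q.2.1) q) :
    (T.image (dk s s' f1)).card ≤ (2 * 1000036) ^ 2 * II1 s s' f1 := by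
  classical
  have hss := h.hss
  have hB : (∏ f, (if f ∈ RR' s s' ∨ f = f1 then 1 else
      2 * ((pr f - 1) * pr f ^ ((cnt f (sl s) - cnt f (sl s')) / 2)))) ≤
      (2 * 1000036) ^ 2 * II1 s s' f1 := by
    rw [← Finset.mul_prod_erase Finset.univ _ (Finset.mem_univ f1)]
    simp only [or_true, if_true, one_mul]
    have hc : (Finset.univ.erase f1 : Finset (Fin 3)).card = 2 := by
      rw [Finset.card_erase_of_mem (Finset.mem_univ _)]
      rfl
    calc ∏ f ∈ univ.erase f1, (if f ∈ RR' s s' ∨ f = f1 then 1 else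
          2 * ((pr f - 1) * pr f ^ ((cnt f (sl s) - cnt f (sl s')) / 2)))
        ≤ ∏ f ∈ univ.erase f1, ((2 * 1000036) * pr f ^ ((cnt f (sl s) - cnt f (sl s')) / 2)) := by
          refine Finset.prod_le_prod' (fun f _ => ?_)
          have h1 : 1 ≤ pr f ^ ((cnt f (sl s) - cnt f (sl s')) / 2) :=
            Nat.one_le_iff_ne_zero.mpr (pow_pos (pr_prime f).pos _).ne'
          split_ifs
          · calc 1 ≤ (2 * 1000036) * 1 := by norm_num
              _ ≤ _ := Nat.mul_le_mul_left _ h1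
          · rw [← mul_assoc]
            exact Nat.mul_le_mul_right _ (Nat.mul_le_mul_left _ (pr_le f))
      _ = (2 * 1000036) ^ 2 * II1 s s' f1 := by
          rw [Finset.prod_mul_distrib, Finset.prod_const, hc, II1]
  refine le_trans ?_ hB
  refine card_le_prod_rank (rk (ordK (sl s))) _ _ ?_
  intro f g hg T' hT'
  split_ifs with hf
  · refine Finset.card_le_one.mpr ?_
    intro y hy z hz
    obtain ⟨y', hy', -, rfl⟩ := hT' y hy
    obtain ⟨z', hz', -, rfl⟩ := hT' z hz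
    rw [Finset.mem_image] at hy' hz'
    obtain ⟨q, _, rfl⟩ := hy'
    obtain ⟨q2, _, rfl⟩ := hz'
    simp only [dk, if_pos hf]
  · push Not at hf
    obtain ⟨hf1, hf2⟩ := hf
    refine card_pairs_le (pr_prime f) (pr_ne_two f) (cnt f (sl s)) (cnt f (sl s'))
      (cnt_mono f (sl_mono (by omega)))
      (((n : ℕ) : ZMod (pr f ^ cnt f (sl s'))) -
        ((w0 (s, f.val, mask (pre (sl s) f) (fun j => (g j).1)) : ℕ) :
          ZMod (pr f ^ cnt f (sl s'))) -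
        ((w0 (s', f.val, mask (pre (sl s') f) (fun j => (g j).2)) : ℕ) :
          ZMod (pr f ^ cnt f (sl s')))) _ ?_
    intro z hz
    obtain ⟨g', hg', hrk, rfl⟩ := hT' z hz
    rw [Finset.mem_image] at hg'
    obtain ⟨q, hq, rfl⟩ := hg'
    obtain ⟨hx, hx', r, r', hE⟩ := hT q hq
    have hd : dk s s' f1 q f = (q.1.1 f, q.2.1 f) := by
      simp only [dk, hf1, hf2, or_self, if_false]
    have hm1 : mask (pre (sl s) f) (fun j => (g j).1) = mask (pre (sl s) f) q.1.1 := by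
      rw [(mask_dk h hf1 q).1]
      refine mask_congr (fun j hj => ?_)
      rw [hrk j (h.rank f j (Finset.mem_union_left _ hj))]
    have hm2 : mask (pre (sl s') f) (fun j => (g j).2) = mask (pre (sl s') f) q.2.1 := by
      rw [(mask_dk h hf1 q).2]
      refine mask_congr (fun j hj => ?_)
      rw [hrk j (h.rank f j (Finset.mem_union_right _ hj))]
    rw [hd, hm1, hm2]
    obtain ⟨a1, a2, a3⟩ := mem_XX' hx f
    obtain ⟨b1, b2, b3⟩ := mem_XX' hx' f
    exact ⟨a1, b1, a2, b2, a3, b3, comp_low h w0 n q r r' hx hx' hE f hf1⟩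

/-- the last fibre: everything off `RR'` is given -/
theorem fib4 (h : Meso s s' b f1 f0) (T : Finset Hit)
    (hT : ∀ q ∈ T, q.1.1 ∈ XX s ∧ q.2.1 ∈ XX s') (D : Fin 3 → ℕ × ℕ) (y y' v v' : ℕ)
    (h1 : ∀ q ∈ T, dk s s' f1 q = D ∧ q.1.1 f1 = y ∧ q.2.1 f1 = y' ∧ q.1.2 = v ∧ q.2.2 = v') :
    T.card ≤ MM pr (av (se s')) (RR' s s') := by
  classical
  have hinj : Set.InjOn (fun q : Hit => (q.1.1, q.2.1)) (T : Set Hit) := by
    intro q hq z hz hqz
    obtain ⟨-, -, -, a1, a2⟩ := h1 q hq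
    obtain ⟨-, -, -, b1, b2⟩ := h1 z hz
    obtain ⟨⟨qx, qv⟩, ⟨qx', qv'⟩⟩ := q
    obtain ⟨⟨zx, zv⟩, ⟨zx', zv'⟩⟩ := z
    simp only at a1 a2 b1 b2 hqz
    rw [Prod.mk.injEq] at hqz
    rw [hqz.1, hqz.2, a1, a2, b1, b2]
  rw [← Finset.card_image_of_injOn hinj]
  have hP : MM pr (av (se s')) (RR' s s') = ∏ f ∈ RR' s s', pr f ^ cnt f (sl s') := by
    unfold MM av
    refine Finset.prod_congr rfl (fun f hf => ?_)
    rw [stat_se h hf]
  rw [hP]
  refine card_pairs_fixed s s' (RR' s s') (fun f hf => stat_sl h hf)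
    (fun f => if f = f1 then y else (D f).1) (fun f => if f = f1 then y' else (D f).2) _ ?_ ?_
  · intro z hz
    rw [Finset.mem_image] at hz
    obtain ⟨q, hq, rfl⟩ := hz
    exact hT q hq
  · intro z hz f hf
    rw [Finset.mem_image] at hz
    obtain ⟨q, hq, rfl⟩ := hz
    obtain ⟨a1, a2, a3, -, -⟩ := h1 q hq
    by_cases h2 : f = f1
    · subst h2
      simp only [if_true]
      exact ⟨a2, a3⟩
    · simp only [if_neg h2]
      rw [← a1]
      simp only [dk, hf, h2, or_self, if_false, and_self]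

/-- the product of the two primes of `f1` is given -/
theorem fib3 (h : Meso s s' b f1 f0) (T : Finset Hit)
    (hT : ∀ q ∈ T, q.1.1 ∈ XX s ∧ q.2.1 ∈ XX s') (D : Fin 3 → ℕ × ℕ) (m v v' : ℕ)
    (h1 : ∀ q ∈ T, dk s s' f1 q = D ∧ q.1.1 f1 * q.2.1 f1 = m ∧ q.1.2 = v ∧ q.2.2 = v') :
    T.card ≤ MM pr (av (se s')) (RR' s s') * 2 := by
  classical
  have h2 : (T.image (fun q : Hit => (q.1.1 f1, q.2.1 f1))).card ≤ 2 := by
    refine card_two_primes_le _ m ?_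
    intro z hz
    rw [Finset.mem_image] at hz
    obtain ⟨q, hq, rfl⟩ := hz
    exact ⟨(mem_XX' (hT q hq).1 f1).1, (mem_XX' (hT q hq).2 f1).1, (h1 q hq).2.1⟩
  refine le_trans (Finset.card_le_mul_card_image (f := fun q : Hit => (q.1.1 f1, q.2.1 f1)) T
    (MM pr (av (se s')) (RR' s s')) ?_) (Nat.mul_le_mul_left _ h2)
  intro z _
  refine fib4 h _ ?_ D z.1 z.2 v v' ?_
  · intro q hq
    rw [Finset.mem_filter] at hq
    exact hT q hq.1
  · intro q hq
    rw [Finset.mem_filter] at hq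
    obtain ⟨a1, a2, a3, a4⟩ := h1 q hq.1
    have hz := hq.2
    exact ⟨a1, by rw [← hz], by rw [← hz], a3, a4⟩

/-- the linear form: hypothesis (C) -/
def LinForm (s s' : ℕ) (f1 : Fin 3) (w0 : Key → ℕ) (n : ℕ) : Prop :=
  ∀ (xd xd' : Fin 3 → ℕ) (t : ℕ),
    ∃ α E : ℕ, E.Coprime (pr f1) ∧ ∀ (q : Hit) (r r' : Fin 3 → ℕ), q.1.1 ∈ XX s → q.2.1 ∈ XX s' →
      Eqn s s' n (hval s w0 (RR s s') r q.1.1) (hval s' w0 (RR' s s') r' q.2.1) q →
      (∀ f, f ∉ RR' s s' → f ≠ f1 → q.1.1 f = xd f ∧ q.2.1 f = xd' f) →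
      (q.1.1 f1 * q.2.1 f1) % pr f1 ^ (cnt f1 (sl s') + 1) = t →
      (q.2.2 + Nj (sl s) / Nj (sl s') * q.1.2) % QQ s' =
        (α + E * ((q.1.1 f1 * q.2.1 f1) / pr f1 ^ (cnt f1 (sl s') + 1))) % QQ s'

theorem QQ_pos (s' : ℕ) : 0 < QQ s' :=
  Nat.div_pos (Nj_mono (sl_le_se s')) (Nj_pos _)

theorem fib2 (h : Meso s s' b f1 f0) (w0 : Key → ℕ) (V V' : Finset ℕ) (B1 B2 R : ℕ)
    (hW : Win s s' f1 V V' B1 B2 R) (n : ℕ) (hlin : LinForm s s' f1 w0 n) (T : Finset Hit)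
    (hT : ∀ q ∈ T, q.1.1 ∈ XX s ∧ q.2.1 ∈ XX s' ∧ q.2.2 ∈ V' ∧
      ∃ r r', Eqn s s' n (hval s w0 (RR s s') r q.1.1) (hval s' w0 (RR' s s') r' q.2.1) q)
    (D : Fin 3 → ℕ × ℕ) (t v : ℕ)
    (h1 : ∀ q ∈ T, dk s s' f1 q = D ∧
      (q.1.1 f1 * q.2.1 f1) % pr f1 ^ (cnt f1 (sl s') + 1) = t ∧ q.1.2 = v) :
    T.card ≤ (MM pr (av (se s')) (RR' s s') * 2) * B2 := by
  classical
  have hss := h.hss
  obtain ⟨α, E, hE, hα⟩ := hlin (fun f => (D f).1) (fun f => (D f).2) t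
  set c := Nj (sl s) / Nj (sl s') * v with hc
  refine le_trans (Finset.card_le_mul_card_image_of_maps_to
    (f := fun q : Hit => ((q.1.1 f1 * q.2.1 f1) / pr f1 ^ (cnt f1 (sl s') + 1), q.2.2))
    (t := (range (II s s' f1) ×ˢ V').filter
      (fun z => z.2 % QQ s' = ((α + (QQ s' - 1) * c) + E * z.1) % QQ s')) ?_
    (MM pr (av (se s')) (RR' s s') * 2) ?_) (Nat.mul_le_mul_left _ (hW.p2 _ E hE))
  · intro q hq
    obtain ⟨hx, hx', hv', r, r', hEq⟩ := hT q hq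
    obtain ⟨a1, a2, a3⟩ := h1 q hq
    rw [Finset.mem_filter, Finset.mem_product, Finset.mem_range]
    refine ⟨⟨?_, hv'⟩, ?_⟩
    · exact (prod_param (pr_prime f1) (cnt f1 (sl s)) (cnt f1 (sl s')) _ _
        (cnt_mono f1 (sl_mono (by omega))) (mem_XX' hx f1).2.2 (mem_XX' hx' f1).2.2).2
    · have h2 := hα q r r' hx hx' hEq (by
        intro f hf hf1
        rw [← a1]
        simp only [dk, hf, hf1, or_self, if_false, and_self]) a2
      rw [a3, ← hc] at h2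
      have hQ := QQ_pos s'
      have h3 : q.2.2 ≡ (q.2.2 + c) + (QQ s' - 1) * c [MOD QQ s'] := by
        have e : (q.2.2 + c) + (QQ s' - 1) * c = q.2.2 + QQ s' * c := by
          obtain ⟨k, hk⟩ : ∃ k, QQ s' = k + 1 := ⟨QQ s' - 1, by omega⟩
          rw [hk]
          simp only [Nat.add_sub_cancel]
          ring
        rw [e]
        simp [Nat.ModEq]
      have h4 : (q.2.2 + c) + (QQ s' - 1) * c ≡
          (α + E * ((q.1.1 f1 * q.2.1 f1) / pr f1 ^ (cnt f1 (sl s') + 1))) + (QQ s' - 1) * c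
          [MOD QQ s'] := Nat.ModEq.add_right _ h2
      have h5 := h3.trans h4
      have e2 : (α + E * ((q.1.1 f1 * q.2.1 f1) / pr f1 ^ (cnt f1 (sl s') + 1))) +
          (QQ s' - 1) * c = (α + (QQ s' - 1) * c) +
          E * ((q.1.1 f1 * q.2.1 f1) / pr f1 ^ (cnt f1 (sl s') + 1)) := by ring
      rw [e2] at h5
      exact h5
  · intro z _
    refine fib3 h _ ?_ D (t + z.1 * pr f1 ^ (cnt f1 (sl s') + 1)) v z.2 ?_
    · intro q hq
      rw [Finset.mem_filter] at hq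
      exact ⟨(hT q hq.1).1, (hT q hq.1).2.1⟩
    · intro q hq
      rw [Finset.mem_filter] at hq
      obtain ⟨a1, a2, a3⟩ := h1 q hq.1
      have hz := hq.2
      refine ⟨a1, ?_, a3, by rw [← hz]⟩
      rw [← hz, ← a2]
      rw [mul_comm (_ / _)]
      exact (Nat.mod_add_div _ _).symm

/-- the window of `v` -/
theorem v_window (n : ℕ) (q : Hit) (hh hh' : Fin 3 → ℕ)
    (hv' : q.2.2 ∈ Ico (vlo s') (vhi s')) (hE : Eqn s s' n hh hh' q) :
    (n - (Nj (se s) + Nj (sk (s' + 1)))) / Nj (sl s) ≤ q.1.2 ∧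
      q.1.2 < (n - (Nj (se s) + Nj (sk (s' + 1)))) / Nj (sl s) + LL s s' := by
  have hl := Nj_pos (sl s)
  have hl' := Nj_pos (sl s')
  rw [Finset.mem_Ico] at hv'
  have h1 : Nj (sl s') * q.2.2 + Nj (sl s') ≤ Nj (sk (s' + 1)) - Nj (se s') := by
    have h2 : q.2.2 + 1 ≤ (Nj (sk (s' + 1)) - Nj (se s')) / Nj (sl s') := hv'.2
    rw [Nat.le_div_iff_mul_le hl'] at h2
    calc Nj (sl s') * q.2.2 + Nj (sl s') = (q.2.2 + 1) * Nj (sl s') := by ring
      _ ≤ _ := h2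
  have h3 : Nj (se s') ≤ Nj (sk (s' + 1)) := by omega
  unfold Eqn at hE
  have h4 := codeH_lt s hh q.1.1
  have h5 := codeH_lt s' hh' q.2.1
  have hle : Nj (sl s) ≤ Nj (se s) := Nj_mono (sl_le_se s)
  set N := Nj (sl s) with hN
  set X := n - (Nj (se s) + Nj (sk (s' + 1))) with hX
  have h6 : X ≤ N * q.1.2 := by omega
  constructor
  · calc X / N ≤ (N * q.1.2) / N := Nat.div_le_div_right h6
      _ = q.1.2 := Nat.mul_div_cancel_left _ hl
  · have h7 : N * q.1.2 ≤ X + (Nj (se s) + Nj (sk (s' + 1))) := by omega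
    have h8 : q.1.2 ≤ (X + (Nj (se s) + Nj (sk (s' + 1)))) / N := by
      rw [Nat.le_div_iff_mul_le hl, mul_comm]
      exact h7
    have h9 : (X + (Nj (se s) + Nj (sk (s' + 1)))) / N ≤
        X / N + (Nj (se s) + Nj (sk (s' + 1))) / N + 1 := by
      have e1 := Nat.div_add_mod X N
      have e2 := Nat.div_add_mod (Nj (se s) + Nj (sk (s' + 1))) N
      have m1 := Nat.mod_lt X hl
      have m2 := Nat.mod_lt (Nj (se s) + Nj (sk (s' + 1))) hl
      rw [Nat.div_le_iff_le_mul_add_pred hl]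
      have : N * (X / N + (Nj (se s) + Nj (sk (s' + 1))) / N + 1) =
        N * (X / N) + N * ((Nj (se s) + Nj (sk (s' + 1))) / N) + N := by ring
      rw [this]
      omega
    have h10 : (Nj (se s) + Nj (sk (s' + 1))) / N + 1 ≤ (2 * Nj (se s) + Nj (sk (s' + 1))) / N := by
      rw [← Nat.add_div_right _ hl]
      apply Nat.div_le_div_right
      omega
    unfold LL
    rw [← hN]
    omega

theorem fib1 (h : Meso s s' b f1 f0) (w0 : Key → ℕ) (V V' : Finset ℕ) (B1 B2 R : ℕ)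
    (hW : Win s s' f1 V V' B1 B2 R) (n : ℕ) (hlin : LinForm s s' f1 w0 n) (T : Finset Hit)
    (hT : ∀ q ∈ T, q.1.1 ∈ XX s ∧ q.2.1 ∈ XX s' ∧ q.1.2 ∈ V ∧ q.2.2 ∈ V' ∧
      ∃ r r', Eqn s s' n (hval s w0 (RR s s') r q.1.1) (hval s' w0 (RR' s s') r' q.2.1) q)
    (D : Fin 3 → ℕ × ℕ) (t : ℕ)
    (h1 : ∀ q ∈ T, dk s s' f1 q = D ∧
      (q.1.1 f1 * q.2.1 f1) % pr f1 ^ (cnt f1 (sl s') + 1) = t) :
    T.card ≤ ((MM pr (av (se s')) (RR' s s') * 2) * B2) * B1 := by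
  classical
  have hss := h.hss
  refine le_trans (Finset.card_le_mul_card_image_of_maps_to
    (f := fun q : Hit => q.1.2)
    (t := V.filter (fun v => (n - (Nj (se s) + Nj (sk (s' + 1)))) / Nj (sl s) ≤ v ∧
      v < (n - (Nj (se s) + Nj (sk (s' + 1)))) / Nj (sl s) + LL s s')) ?_
    ((MM pr (av (se s')) (RR' s s') * 2) * B2) ?_) (Nat.mul_le_mul_left _ (hW.p1 _))
  · intro q hq
    obtain ⟨hx, hx', hv, hv', r, r', hEq⟩ := hT q hq
    rw [Finset.mem_filter]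
    exact ⟨hv, v_window n q _ _ (hW.sub' hv') hEq⟩
  · intro v _
    refine fib2 h w0 V V' B1 B2 R hW n hlin _ ?_ D t v ?_
    · intro q hq
      rw [Finset.mem_filter] at hq
      obtain ⟨hx, hx', hv, hv', hr⟩ := hT q hq.1
      exact ⟨hx, hx', hv', hr⟩
    · intro q hq
      rw [Finset.mem_filter] at hq
      exact ⟨(h1 q hq.1).1, (h1 q hq.1).2, hq.2⟩

theorem fib0 (h : Meso s s' b f1 f0) (w0 : Key → ℕ) (V V' : Finset ℕ) (B1 B2 R : ℕ)
    (hW : Win s s' f1 V V' B1 B2 R) (n : ℕ) (hlin : LinForm s s' f1 w0 n) (T : Finset Hit)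
    (hT : ∀ q ∈ T, q.1.1 ∈ XX s ∧ q.2.1 ∈ XX s' ∧ q.1.2 ∈ V ∧ q.2.2 ∈ V' ∧
      ∃ r r', Eqn s s' n (hval s w0 (RR s s') r q.1.1) (hval s' w0 (RR' s s') r' q.2.1) q)
    (D : Fin 3 → ℕ × ℕ) (h1 : ∀ q ∈ T, dk s s' f1 q = D) :
    T.card ≤ (((MM pr (av (se s')) (RR' s s') * 2) * B2) * B1) * 1000036 := by
  classical
  have hf1 := f1_not_mem h
  have hLg := (card_Lg_le (pr_prime f1) (pr_ne_two f1) (cnt f1 (sl s'))
    (((n : ℕ) : ZMod (pr f1 ^ cnt f1 (sl s'))) -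
        ((w0 (s, f1.val, mask (pre (sl s) f1) (fun j => (D j).1)) : ℕ) :
          ZMod (pr f1 ^ cnt f1 (sl s'))) -
        ((w0 (s', f1.val, mask (pre (sl s') f1) (fun j => (D j).2)) : ℕ) :
          ZMod (pr f1 ^ cnt f1 (sl s'))))).trans (pr_le f1)
  refine le_trans (Finset.card_le_mul_card_image_of_maps_to
    (f := fun q : Hit => (q.1.1 f1 * q.2.1 f1) % pr f1 ^ (cnt f1 (sl s') + 1)) ?_
    (((MM pr (av (se s')) (RR' s s') * 2) * B2) * B1) ?_) (Nat.mul_le_mul_left _ hLg)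
  · intro q hq
    obtain ⟨hx, hx', hv, hv', r, r', hEq⟩ := hT q hq
    have a1 := (mem_XX' hx f1).2.1
    have a2 := (mem_XX' hx' f1).2.1
    rw [Finset.mem_filter, Finset.mem_range]
    refine ⟨Nat.mod_lt _ (pow_pos (pr_prime f1).pos _), mod_coprime _ _
      (Nat.Coprime.mul_left a1 a2), ?_⟩
    rw [Lg_mod, Lg_mul (pr_prime f1) (pr_ne_two f1) _ _ _ a1 a2,
      comp_low h w0 n q r r' hx hx' hEq f1 hf1, (mask_dk h hf1 q).1, (mask_dk h hf1 q).2,
      h1 q hq]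
  · intro t _
    refine fib1 h w0 V V' B1 B2 R hW n hlin _ ?_ D t ?_
    · intro q hq
      rw [Finset.mem_filter] at hq
      exact hT q hq.1
    · intro q hq
      rw [Finset.mem_filter] at hq
      exact ⟨h1 q hq.1, hq.2⟩

open Classical in
/-- (D2) with the linear form as a hypothesis -/
theorem cand_count_of (h : Meso s s' b f1 f0) (w0 : Key → ℕ) (V V' : Finset ℕ) (B1 B2 R : ℕ)
    (hW : Win s s' f1 V V' B1 B2 R) (n : ℕ) (hlin : LinForm s s' f1 w0 n) :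
    ((Cand s s' V V').filter (fun q => ∃ r r',
      Eqn s s' n (hval s w0 (RR s s') r q.1.1) (hval s' w0 (RR' s s') r' q.2.1) q)).card ≤
      C0 * II1 s s' f1 * B1 * B2 * MM pr (av (se s')) (RR' s s') := by
  set A := (Cand s s' V V').filter (fun q => ∃ r r',
      Eqn s s' n (hval s w0 (RR s s') r q.1.1) (hval s' w0 (RR' s s') r' q.2.1) q) with hA
  have hT : ∀ q ∈ A, q.1.1 ∈ XX s ∧ q.2.1 ∈ XX s' ∧ q.1.2 ∈ V ∧ q.2.2 ∈ V' ∧
      ∃ r r', Eqn s s' n (hval s w0 (RR s s') r q.1.1) (hval s' w0 (RR' s s') r' q.2.1) q := by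
    intro q hq
    rw [hA, Finset.mem_filter, Cand, Finset.mem_product, Finset.mem_product,
      Finset.mem_product] at hq
    exact ⟨hq.1.1.1, hq.1.2.1, hq.1.1.2, hq.1.2.2, hq.2⟩
  have h1 : A.card ≤ ((((MM pr (av (se s')) (RR' s s') * 2) * B2) * B1) * 1000036) *
      (A.image (dk s s' f1)).card := by
    refine Finset.card_le_mul_card_image A _ ?_
    intro D _
    refine fib0 h w0 V V' B1 B2 R hW n hlin _ ?_ D ?_
    · intro q hq
      rw [Finset.mem_filter] at hq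
      exact hT q hq.1
    · intro q hq
      rw [Finset.mem_filter] at hq
      exact hq.2
  have h2 := card_dk h w0 n A (fun q hq => ⟨(hT q hq).1, (hT q hq).2.1, (hT q hq).2.2.2.2⟩)
  calc A.card ≤ _ := h1
    _ ≤ ((((MM pr (av (se s')) (RR' s s') * 2) * B2) * B1) * 1000036) *
        ((2 * 1000036) ^ 2 * II1 s s' f1) := Nat.mul_le_mul_left _ h2
    _ = (2 * 1000036 * (2 * 1000036) ^ 2) *
        (II1 s s' f1 * B1 * B2 * MM pr (av (se s')) (RR' s s')) := by ring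
    _ ≤ C0 * (II1 s s' f1 * B1 * B2 * MM pr (av (se s')) (RR' s s')) :=
        Nat.mul_le_mul_right _ (by unfold C0; norm_num)
    _ = _ := by ring

end Pool.Agent.Helper33.MD
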