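import Pool.Agent.Helper33.M.Cand

/-!
# T4', block M, piece D: the fibre and the data count
-/

namespace Pool.Agent.Helper33.MD

open Finset Pool.Agent.Helper27.T4 Pool.Agent.Helper5.ET Pool.Agent.Helper3.M Pool.Agent.Helper33.M
  Pool.Agent.Helper3.T4
open Pool.Agent.Helper8.MB (Cand codeH Eqn hval Rng YY cnt_mono comp_eq_low codeH_lt
  cast_codeH card_Rng)

variable {s s' b : ℕ} {f1 f0 : Fin 3}

/-- the code determines the fresh values -/
theorem code_inj (s : ℕ) (w0 : Key → ℕ) (R : Finset (Fin 3)) (x r t : Fin 3 → ℕ)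
    (hr : r ∈ Rng s R) (ht : t ∈ Rng s R)
    (h : codeH s (hval s w0 R r x) x = codeH s (hval s w0 R t x) x) : r = t := by
  funext f
  rw [Rng, Fintype.mem_piFinset] at hr ht
  have hr' := hr f
  have ht' := ht f
  by_cases hf : f ∈ R
  · rw [if_pos hf, Finset.mem_range] at hr' ht'
    have h1 := cast_codeH s (hval s w0 R r x) x f
    have h2 := cast_codeH s (hval s w0 R t x) x f
    rw [h, h2] at h1
    have h3 := add_left_cancel h1
    simp only [hval, if_pos hf] at h3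
    rw [ZMod.natCast_eq_natCast_iff, Nat.ModEq] at h3
    have e : av (se s) f = cnt f (se s) := rfl
    rw [e, Nat.mod_eq_of_lt hr', Nat.mod_eq_of_lt ht'] at h3
    exact h3.symm
  · rw [if_neg hf, Finset.mem_singleton] at hr' ht'
    rw [hr', ht']

/-- (D1) the fibre -/
theorem fiber_count (w0 : Key → ℕ) (n : ℕ) (q : Hit) (R R' : Finset (Fin 3))
    (T : Finset ((Fin 3 → ℕ) × (Fin 3 → ℕ)))
    (hT : ∀ z ∈ T, z.1 ∈ Rng s R ∧ z.2 ∈ Rng s' R' ∧
      Eqn s s' n (hval s w0 R z.1 q.1.1) (hval s' w0 R' z.2 q.2.1) q) :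
    (T.card : ℝ) ≤
      (MM pr (av (se s)) R : ℝ) *
        ((Nj (se s') : ℝ) / Nj (se s) + ((MM pr (av (se s)) R : ℝ))⁻¹) := by
  classical
  have hinj : Set.InjOn (fun z : (Fin 3 → ℕ) × (Fin 3 → ℕ) =>
      codeH s (hval s w0 R z.1 q.1.1) q.1.1) (T : Set ((Fin 3 → ℕ) × (Fin 3 → ℕ))) := by
    intro z hz u hu hzu
    obtain ⟨a1, a2, a3⟩ := hT z hz
    obtain ⟨b1, b2, b3⟩ := hT u hu
    simp only at hzu
    have h1 := code_inj s w0 R q.1.1 z.1 u.1 a1 b1 hzu
    unfold Eqn at a3 b3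
    have h2 := code_inj s' w0 R' q.2.1 z.2 u.2 a2 b2 (by omega)
    exact Prod.ext h1 h2
  rw [← Finset.card_image_of_injOn hinj]
  rcases Finset.eq_empty_or_nonempty T with he | ⟨z0, hz0⟩
  · rw [he]
    simp only [Finset.image_empty, Finset.card_empty, Nat.cast_zero]
    positivity
  · have h0 := (hT z0 hz0).2.2
    unfold Eqn at h0
    have h := arc_fixed_real (av (se s)) R
      (fun f => Lg (pr f) (av (se s) f) (q.1.1 f) + ((hv s w0 f q.1.1 : ℕ) :
        ZMod (pr f ^ av (se s) f)))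
      (n - (Nj (sl s) * q.1.2 + Nj (sl s') * q.2.2)) (Nj (se s'))
      (T.image (fun z : (Fin 3 → ℕ) × (Fin 3 → ℕ) =>
      codeH s (hval s w0 R z.1 q.1.1) q.1.1)) ?_ ?_
    · rw [one_div] at h
      exact h
    · intro y hy
      rw [Finset.mem_image] at hy
      obtain ⟨z, hz, rfl⟩ := hy
      have h1 := (hT z hz).2.2
      unfold Eqn at h1
      have h2 := codeH_lt s' (hval s' w0 R' z.2 q.2.1) q.2.1
      constructor <;> omega
    · intro y hy f hf
      rw [Finset.mem_image] at hy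
      obtain ⟨z, hz, rfl⟩ := hy
      rw [cast_codeH]
      simp only [hval, if_neg hf]

/-- **(D)** the data count, with the linear form as a hypothesis -/
theorem data_count_of (h : Meso s s' b f1 f0) (w0 : Key → ℕ) (V V' : Finset ℕ) (B1 B2 R : ℕ)
    (hW : Win s s' f1 V V' B1 B2 R) (n : ℕ) (hlin : LinForm s s' f1 w0 n) :
    ((YY s s' w0 (RR s s') (RR' s s') V V' n).card : ℝ) ≤
      C0 * II1 s s' f1 * B1 * B2 *
        ((Nj (se s') : ℝ) / Nj (se s) + ((MM pr (av (se s)) (RR s s') : ℝ))⁻¹) *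
        ((MM pr (av (se s)) (RR s s') : ℝ) * MM pr (av (se s')) (RR' s s')) := by
  classical
  set F : ℝ := (MM pr (av (se s)) (RR s s') : ℝ) *
    ((Nj (se s') : ℝ) / Nj (se s) + ((MM pr (av (se s)) (RR s s') : ℝ))⁻¹) with hF
  have hF0 : 0 ≤ F := by rw [hF]; positivity
  set Y := YY s s' w0 (RR s s') (RR' s s') V V' n with hY
  have hYm : ∀ z ∈ Y, z.1 ∈ Cand s s' V V' ∧ z.2.1 ∈ Rng s (RR s s') ∧
      z.2.2 ∈ Rng s' (RR' s s') ∧
      Eqn s s' n (hval s w0 (RR s s') z.2.1 z.1.1.1) (hval s' w0 (RR' s s') z.2.2 z.1.2.1) z.1 := by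
    intro z hz
    rw [hY, YY, Finset.mem_filter, Finset.mem_product, Finset.mem_product] at hz
    exact ⟨hz.1.1, hz.1.2.1, hz.1.2.2, hz.2⟩
  have h1 : (Y.card : ℝ) ≤ ∑ q ∈ Y.image Prod.fst, F := by
    have e1 : Y.card = ∑ q ∈ Y.image Prod.fst, (Y.filter (fun z => z.1 = q)).card :=
      Finset.card_eq_sum_card_image Prod.fst Y
    rw [e1]
    push_cast
    refine Finset.sum_le_sum (fun q _ => ?_)
    have hinj : Set.InjOn (fun z : Hit × (Fin 3 → ℕ) × (Fin 3 → ℕ) => z.2)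
        ((Y.filter (fun z => z.1 = q) : Finset _) : Set _) := by
      intro z hz u hu hzu
      rw [Finset.mem_coe, Finset.mem_filter] at hz hu
      exact Prod.ext (hz.2.trans hu.2.symm) hzu
    rw [← Finset.card_image_of_injOn hinj]
    refine fiber_count w0 n q (RR s s') (RR' s s') _ ?_
    intro z hz
    rw [Finset.mem_image] at hz
    obtain ⟨u, hu, rfl⟩ := hz
    rw [Finset.mem_filter] at hu
    obtain ⟨hu1, rfl⟩ := hu
    exact (hYm u hu1).2
  have h2 : (Y.image Prod.fst).card ≤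
      C0 * II1 s s' f1 * B1 * B2 * MM pr (av (se s')) (RR' s s') := by
    refine le_trans (Finset.card_le_card ?_) (cand_count_of h w0 V V' B1 B2 R hW n hlin)
    intro q hq
    rw [Finset.mem_image] at hq
    obtain ⟨z, hz, rfl⟩ := hq
    obtain ⟨a1, a2, a3, a4⟩ := hYm z hz
    rw [Finset.mem_filter]
    exact ⟨a1, z.2.1, z.2.2, a4⟩
  rw [Finset.sum_const, nsmul_eq_mul] at h1
  calc (Y.card : ℝ) ≤ (Y.image Prod.fst).card * F := h1
    _ ≤ (C0 * II1 s s' f1 * B1 * B2 * MM pr (av (se s')) (RR' s s') : ℕ) * F :=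
        mul_le_mul_of_nonneg_right (by exact_mod_cast h2) hF0
    _ = _ := by
        rw [hF]
        push_cast
        ring

end Pool.Agent.Helper33.MD
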