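import Pool.Agent.Helper33.M.Arc
import Pool.Agent.Helper3.M.Defs

/-!
# T4', block M, piece D: the data count for `Dat`
-/

namespace Pool.Agent.Helper33.M

open Finset Pool.Agent.Helper27.T4 Pool.Agent.Helper5.ET Pool.Agent.Helper3.M

theorem tau_mono : Monotone tau := monotone_nat_of_le_succ (fun c => by
  rw [tau]
  exact Nat.le_add_right _ _)

theorem cnt_mono (f : Fin 3) {y z : ℕ} (h : y ≤ z) : cnt f y ≤ cnt f z :=
  Finset.card_le_card (Finset.filter_subset_filter _ (Finset.range_subset_range.mpr h))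

theorem sl_le_se (s : ℕ) : sl s ≤ se s := tau_mono (by omega)

theorem sl_mono {s s' : ℕ} (h : s' ≤ s) : sl s' ≤ sl s := tau_mono (by omega)

theorem se_mono {s s' : ℕ} (h : s' + 2 ≤ s) : se s' ≤ se s := tau_mono (by omega)

/-- the part of a datum off `RR'` -/
def Lw (s s' : ℕ) (d : Hit × (ℕ × ℕ)) : Hit :=
  ((mask (RR' s s')ᶜ d.1.1.1, d.1.1.2), (mask (RR' s s')ᶜ d.1.2.1, d.1.2.2))

/-- counting form -/
theorem dat_card_nat (s s' n : ℕ) (w : Key → ℕ) (V V' : Finset ℕ)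
    (hst : ∀ f ∈ RR' s s', cnt f (sl s) = cnt f (sl s')) (Y : Finset (Hit × (ℕ × ℕ)))
    (hY : Y ⊆ Dat s s' w V V' n) :
    Y.card ≤ (Y.image (Lw s s')).card * ((∏ f ∈ RR' s s', pr f ^ cnt f (sl s')) *
      (Nj (se s') / NN pr (fx (av (se s)) (RR s s')) + 1)) := by
  classical
  have hmem : ∀ d ∈ Y, (d.1.1.1 ∈ XX s ∧ d.1.2.1 ∈ XX s') ∧ d.2.2 < Nj (se s') ∧
      (d.2.1 + Nj (sl s) * d.1.1.2) + (d.2.2 + Nj (sl s') * d.1.2.2) = n ∧
      (∀ f ∉ RR s s', ((d.2.1 : ℕ) : ZMod (pr f ^ av (se s) f)) = cmp s w d.1.1.1 f) := by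
    intro d hd
    have h := hY hd
    rw [Dat, Finset.mem_filter, Finset.mem_product, Finset.mem_product, Finset.mem_product,
      Finset.mem_product, Finset.mem_product, Finset.mem_range, Finset.mem_range] at h
    exact ⟨⟨h.1.1.1.1, h.1.1.2.1⟩, h.1.2.2, h.2.1, h.2.2.1⟩
  rw [mul_comm]
  refine Finset.card_le_mul_card_image Y _ ?_
  intro k hk
  -- the fibre over `k`
  set F := Y.filter (fun d => Lw s s' d = k) with hF
  have hFY : ∀ d ∈ F, d ∈ Y ∧ Lw s s' d = k := by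
    intro d hd
    rw [hF, Finset.mem_filter] at hd
    exact hd
  set G := F.image (fun d => (d.1.1.1, d.1.2.1)) with hG
  have h1 : F.card ≤ (Nj (se s') / NN pr (fx (av (se s)) (RR s s')) + 1) * G.card := by
    refine Finset.card_le_mul_card_image F _ ?_
    intro g hg
    -- the fibre over `g` injects by `y`
    set H := F.filter (fun d => (d.1.1.1, d.1.2.1) = g) with hH
    have hHF : ∀ d ∈ H, d ∈ F ∧ (d.1.1.1, d.1.2.1) = g := by
      intro d hd
      rw [hH, Finset.mem_filter] at hd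
      exact hd
    -- all data of the fibre have the same `v, v'`
    have hv : ∀ d ∈ H, d.1.1.2 = k.1.2 ∧ d.1.2.2 = k.2.2 := by
      intro d hd
      have a3 := (hFY d (hHF d hd).1).2
      rw [← a3]
      exact ⟨rfl, rfl⟩
    have hinj : Set.InjOn (fun d : Hit × (ℕ × ℕ) => d.2.1) (H : Set (Hit × (ℕ × ℕ))) := by
      intro d hd e he hde
      obtain ⟨a1, a2⟩ := hHF d hd
      obtain ⟨b1, b2⟩ := hHF e he
      obtain ⟨v1, v2⟩ := hv d hd
      obtain ⟨v3, v4⟩ := hv e he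
      have e1 := (hmem d (hFY d a1).1).2.2.1
      have e2 := (hmem e (hFY e b1).1).2.2.1
      obtain ⟨⟨⟨dx, dv⟩, ⟨dx', dv'⟩⟩, ⟨dy, dy'⟩⟩ := d
      obtain ⟨⟨⟨ex, ev⟩, ⟨ex', ev'⟩⟩, ⟨ey, ey'⟩⟩ := e
      simp only at hde a2 b2 v1 v2 v3 v4 e1 e2
      rw [← b2, Prod.mk.injEq] at a2
      obtain ⟨c1, c2⟩ := a2
      subst v1 v2
      subst c1 c2 hde v3 v4
      have : dy' = ey' := by omega
      rw [this]
    rw [← Finset.card_image_of_injOn hinj]
    rcases Finset.eq_empty_or_nonempty H with he | hne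
    · rw [he]
      simp
    · obtain ⟨d0, hd0⟩ := hne
      have hm0 : (Nj (sl s) * k.1.2 + Nj (sl s') * k.2.2) ≤ n := by
        have a := (hmem d0 (hFY d0 (hHF d0 hd0).1).1).2.2.1
        obtain ⟨v1, v2⟩ := hv d0 hd0
        rw [v1, v2] at a
        omega
      refine arc_fixed (av (se s)) (RR s s') (fun f => cmp s w g.1 f)
        (n - (Nj (sl s) * k.1.2 + Nj (sl s') * k.2.2)) (Nj (se s')) _ ?_ ?_
      · intro y hy'
        rw [Finset.mem_image] at hy'
        obtain ⟨d, hd, rfl⟩ := hy'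
        obtain ⟨-, a0, a, -⟩ := hmem d (hFY d (hHF d hd).1).1
        obtain ⟨v1, v2⟩ := hv d hd
        rw [v1, v2] at a
        constructor <;> omega
      · intro y hy' f hf
        rw [Finset.mem_image] at hy'
        obtain ⟨d, hd, rfl⟩ := hy'
        obtain ⟨-, -, -, a⟩ := hmem d (hFY d (hHF d hd).1).1
        have b := (hHF d hd).2
        rw [a f hf, ← b]
  have h2 : G.card ≤ ∏ f ∈ RR' s s', pr f ^ cnt f (sl s') := by
    refine card_pairs_fixed s s' (RR' s s') hst k.1.1 k.2.1 G ?_ ?_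
    · intro q hq
      rw [hG, Finset.mem_image] at hq
      obtain ⟨d, hd, rfl⟩ := hq
      exact (hmem d (hFY d hd).1).1
    · intro q hq f hf
      rw [hG, Finset.mem_image] at hq
      obtain ⟨d, hd, rfl⟩ := hq
      obtain ⟨a1, a2⟩ := hFY d hd
      rw [← a2]
      simp only [Lw, mask, Finset.mem_compl, hf, not_false_eq_true, if_true, and_self]
  calc F.card ≤ (Nj (se s') / NN pr (fx (av (se s)) (RR s s')) + 1) * G.card := h1
    _ ≤ (Nj (se s') / NN pr (fx (av (se s)) (RR s s')) + 1) *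
        ∏ f ∈ RR' s s', pr f ^ cnt f (sl s') := Nat.mul_le_mul_left _ h2
    _ = _ := mul_comm _ _

theorem om_eq (s s' : ℕ) : om s s' =
    ((MM pr (av (se s)) (RR s s') : ℝ) * MM pr (av (se s')) (RR' s s'))⁻¹ := by
  unfold om MM av
  push_cast
  rw [mul_inv, Finset.prod_inv_distrib, Finset.prod_inv_distrib]

theorem MR_eq (s s' : ℕ) : MR s s' = (MM pr (av (se s)) (RR s s') : ℝ) := by
  unfold MR MM av
  push_cast
  rfl

/-- **Data count**, piece D: `|Y| * om <= #(lower parts) * (N_e' / N_e + 1 / M_R)` -/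
theorem dat_card (s s' n : ℕ) (w : Key → ℕ) (V V' : Finset ℕ)
    (hst : ∀ f ∈ RR' s s', cnt f (sl s) = cnt f (sl s'))
    (hst' : ∀ f ∈ RR' s s', cnt f (se s') = cnt f (sl s')) (Y : Finset (Hit × (ℕ × ℕ)))
    (hY : Y ⊆ Dat s s' w V V' n) (W : ℝ) (hW : ((Y.image (Lw s s')).card : ℝ) ≤ W) :
    (Y.card : ℝ) * om s s' ≤ W * ((Nj (se s') : ℝ) / Nj (se s) + 1 / MR s s') := by
  have h := dat_card_nat s s' n w V V' hst Y hY
  rw [om_eq, MR_eq]
  have hM : (0 : ℝ) < MM pr (av (se s)) (RR s s') := by exact_mod_cast MM_pos pr_prime _ _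
  have hM' : (0 : ℝ) < MM pr (av (se s')) (RR' s s') := by exact_mod_cast MM_pos pr_prime _ _
  have hdpos : (0 : ℝ) < NN pr (fx (av (se s)) (RR s s')) := by
    exact_mod_cast NN_pos pr_prime _
  have h3 : (NN pr (fx (av (se s)) (RR s s')) : ℝ) * MM pr (av (se s)) (RR s s') =
      Nj (se s) := by
    exact_mod_cast NN_fx_mul (av (se s)) (RR s s')
  have hP : (∏ f ∈ RR' s s', pr f ^ cnt f (sl s')) = MM pr (av (se s')) (RR' s s') := by
    unfold MM av
    refine Finset.prod_congr rfl (fun f hf => ?_)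
    rw [hst' f hf]
  rw [hP] at h
  have h4 : (Y.card : ℝ) ≤ (Y.image (Lw s s')).card * (MM pr (av (se s')) (RR' s s') *
      ((Nj (se s') : ℝ) / NN pr (fx (av (se s)) (RR s s')) + 1)) := by
    calc (Y.card : ℝ) ≤ (((Y.image (Lw s s')).card * (MM pr (av (se s')) (RR' s s') *
        (Nj (se s') / NN pr (fx (av (se s)) (RR s s')) + 1)) : ℕ) : ℝ) := by exact_mod_cast h
      _ ≤ _ := by
          push_cast
          have := @Nat.cast_div_le ℝ _ _ _ (Nj (se s')) (NN pr (fx (av (se s)) (RR s s')))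
          gcongr
  have h5 : (Nj (se s') : ℝ) / NN pr (fx (av (se s)) (RR s s')) + 1 =
      MM pr (av (se s)) (RR s s') *
        ((Nj (se s') : ℝ) / Nj (se s) + 1 / MM pr (av (se s)) (RR s s')) := by
    rw [← h3]
    field_simp
  rw [h5] at h4
  rw [← div_eq_mul_inv, div_le_iff₀ (by positivity)]
  have hnn : (0 : ℝ) ≤ MM pr (av (se s')) (RR' s s') * (MM pr (av (se s)) (RR s s') *
      ((Nj (se s') : ℝ) / Nj (se s) + 1 / MM pr (av (se s)) (RR s s'))) := by positivity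
  calc (Y.card : ℝ) ≤ (Y.image (Lw s s')).card * (MM pr (av (se s')) (RR' s s') *
        (MM pr (av (se s)) (RR s s') *
          ((Nj (se s') : ℝ) / Nj (se s) + 1 / MM pr (av (se s)) (RR s s')))) := h4
    _ ≤ W * (MM pr (av (se s')) (RR' s s') * (MM pr (av (se s)) (RR s s') *
          ((Nj (se s') : ℝ) / Nj (se s) + 1 / MM pr (av (se s)) (RR s s')))) :=
        mul_le_mul_of_nonneg_right hW hnn
    _ = _ := by ring

/-- the static families -/
theorem stat_sl {s s' b : ℕ} {f1 f0 : Fin 3} (h : Meso s s' b f1 f0) (f : Fin 3)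
    (hf : f ∈ RR' s s') : cnt f (sl s) = cnt f (sl s') := by
  have h1 := h.statR f hf
  have hss := h.hss
  have h2 : cnt f (sl s) ≤ cnt f (se s) := cnt_mono f (sl_le_se s)
  have h3 : cnt f (sl s') ≤ cnt f (sl s) := cnt_mono f (sl_mono (by omega))
  omega

theorem stat_se {s s' b : ℕ} {f1 f0 : Fin 3} (h : Meso s s' b f1 f0) (f : Fin 3)
    (hf : f ∈ RR' s s') : cnt f (se s') = cnt f (sl s') := by
  have h1 := h.statR f hf
  have hss := h.hss
  have h2 : cnt f (se s') ≤ cnt f (se s) := cnt_mono f (se_mono hss)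
  have h3 : cnt f (sl s') ≤ cnt f (se s') := cnt_mono f (sl_le_se s')
  omega

/-- **Data count** under `Meso` -/
theorem dat_card_meso {s s' b : ℕ} {f1 f0 : Fin 3} (h : Meso s s' b f1 f0) (n : ℕ)
    (w : Key → ℕ) (V V' : Finset ℕ) (Y : Finset (Hit × (ℕ × ℕ)))
    (hY : Y ⊆ Dat s s' w V V' n) (W : ℝ) (hW : ((Y.image (Lw s s')).card : ℝ) ≤ W) :
    (Y.card : ℝ) * om s s' ≤ W * ((Nj (se s') : ℝ) / Nj (se s) + 1 / MR s s') :=
  dat_card s s' n w V V' (stat_sl h) (stat_se h) Y hY W hW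

end Pool.Agent.Helper33.M
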