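import Pool.Agent.Helper33.M.Arc

/-!
# T4', block M, piece D: the data count
-/

namespace Pool.Agent.Helper33.M

open Finset Pool.Agent.Helper27.T4 Pool.Agent.Helper5.ET

/-- a datum `(x, v, x', v', y)` -/
abbrev Dt : Type := (Fin 3 → ℕ) × ℕ × (Fin 3 → ℕ) × ℕ × ℕ

/-- the datum without the components of `R'` -/
def dk (f : Fin 3) (d : Dt) : ℕ × ℕ × ℕ × ℕ := (d.1 f, d.2.2.1 f, d.2.1, d.2.2.2.1)

/-- counting form -/
theorem data_count_nat (s s' n : ℕ) (R R' : Finset (Fin 3)) (f1 : Fin 3) (x0 x0' : Fin 3 → ℕ)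
    (hst : ∀ f ∈ R', cnt f (sl s) = cnt f (sl s')) (Y : Finset Dt)
    (c : (Fin 3 → ℕ) → (Fin 3 → ℕ) → ∀ f, ZMod (pr f ^ av (se s) f))
    (hX : ∀ d ∈ Y, d.1 ∈ XX s ∧ d.2.2.1 ∈ XX s')
    (hfix : ∀ d ∈ Y, ∀ f, f ∉ R' → f ≠ f1 → d.1 f = x0 f ∧ d.2.2.1 f = x0' f)
    (hc : ∀ d ∈ Y, ∀ f, f ∉ R → ((d.2.2.2.2 : ℕ) : ZMod (pr f ^ av (se s) f)) = c d.1 d.2.2.1 f)
    (hy : ∀ d ∈ Y, d.2.2.2.2 + (Nj (sl s) * d.2.1 + Nj (sl s') * d.2.2.2.1) ≤ n ∧
      n < d.2.2.2.2 + (Nj (sl s) * d.2.1 + Nj (sl s') * d.2.2.2.1) + Nj (se s')) :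
    Y.card ≤ (Y.image (dk f1)).card * ((∏ f ∈ R', pr f ^ cnt f (sl s')) *
      (Nj (se s') / NN pr (fx (av (se s)) R) + 1)) := by
  classical
  rw [mul_comm]
  refine Finset.card_le_mul_card_image Y _ ?_
  intro k hk
  -- the fibre over `k`
  set F := Y.filter (fun d => dk f1 d = k) with hF
  have hFY : ∀ d ∈ F, d ∈ Y ∧ dk f1 d = k := by
    intro d hd
    rw [hF, Finset.mem_filter] at hd
    exact hd
  set G := F.image (fun d => (d.1, d.2.2.1)) with hG
  have h1 : F.card ≤ (Nj (se s') / NN pr (fx (av (se s)) R) + 1) * G.card := by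
    refine Finset.card_le_mul_card_image F _ ?_
    intro g hg
    -- the fibre over `g` injects by `y`
    set H := F.filter (fun d => (d.1, d.2.2.1) = g) with hH
    have hHF : ∀ d ∈ H, d ∈ F ∧ (d.1, d.2.2.1) = g := by
      intro d hd
      rw [hH, Finset.mem_filter] at hd
      exact hd
    have hinj : Set.InjOn (fun d : Dt => d.2.2.2.2) (H : Set Dt) := by
      intro d hd e he hde
      obtain ⟨a1, a2⟩ := hHF d hd
      obtain ⟨b1, b2⟩ := hHF e he
      have a3 := (hFY d a1).2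
      have b3 := (hFY e b1).2
      simp only [dk] at a3 b3
      simp only at hde
      obtain ⟨dx, dv, dx', dv', dy⟩ := d
      obtain ⟨ex, ev, ex', ev', ey⟩ := e
      simp only at a2 a3 b2 b3 hde
      rw [← b2] at a2
      rw [← b3] at a3
      rw [Prod.mk.injEq] at a2
      rw [Prod.mk.injEq, Prod.mk.injEq, Prod.mk.injEq] at a3
      obtain ⟨e1, e2⟩ := a2
      obtain ⟨-, -, e3, e4⟩ := a3
      rw [e1, e2, e3, e4, hde]
    rw [← Finset.card_image_of_injOn hinj]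
    -- all data of the fibre have the same `v, v'`
    have hv : ∀ d ∈ H, d.2.1 = k.2.2.1 ∧ d.2.2.2.1 = k.2.2.2 := by
      intro d hd
      have a3 := (hFY d (hHF d hd).1).2
      rw [← a3]
      exact ⟨rfl, rfl⟩
    have hm : ∀ d ∈ H, (Nj (sl s) * k.2.2.1 + Nj (sl s') * k.2.2.2) ≤ n := by
      intro d hd
      have a := hy d (hFY d (hHF d hd).1).1
      obtain ⟨v1, v2⟩ := hv d hd
      rw [v1, v2] at a
      omega
    rcases Finset.eq_empty_or_nonempty H with he | hne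
    · rw [he]
      simp
    · obtain ⟨d0, hd0⟩ := hne
      have hm0 := hm d0 hd0
      refine arc_fixed (av (se s)) R (c g.1 g.2)
        (n - (Nj (sl s) * k.2.2.1 + Nj (sl s') * k.2.2.2)) (Nj (se s')) _ ?_ ?_
      · intro y hy'
        rw [Finset.mem_image] at hy'
        obtain ⟨d, hd, rfl⟩ := hy'
        have a := hy d (hFY d (hHF d hd).1).1
        obtain ⟨v1, v2⟩ := hv d hd
        rw [v1, v2] at a
        constructor <;> omega
      · intro y hy' f hf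
        rw [Finset.mem_image] at hy'
        obtain ⟨d, hd, rfl⟩ := hy'
        have a := hc d (hFY d (hHF d hd).1).1 f hf
        have b := (hHF d hd).2
        rw [a, ← b]
  have h2 : G.card ≤ ∏ f ∈ R', pr f ^ cnt f (sl s') := by
    refine card_pairs_fixed s s' R' hst (fun f => if f = f1 then k.1 else x0 f)
      (fun f => if f = f1 then k.2.1 else x0' f) G ?_ ?_
    · intro q hq
      rw [hG, Finset.mem_image] at hq
      obtain ⟨d, hd, rfl⟩ := hq
      exact hX d (hFY d hd).1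
    · intro q hq f hf
      rw [hG, Finset.mem_image] at hq
      obtain ⟨d, hd, rfl⟩ := hq
      obtain ⟨a1, a2⟩ := hFY d hd
      by_cases h : f = f1
      · subst h
        simp only [if_true]
        rw [← a2]
        exact ⟨rfl, rfl⟩
      · simp only [if_neg h]
        exact hfix d a1 f hf h
  calc F.card ≤ (Nj (se s') / NN pr (fx (av (se s)) R) + 1) * G.card := h1
    _ ≤ (Nj (se s') / NN pr (fx (av (se s)) R) + 1) * ∏ f ∈ R', pr f ^ cnt f (sl s') :=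
        Nat.mul_le_mul_left _ h2
    _ = _ := mul_comm _ _

/-- real form: `|Y| / (M_R M'_R') ≤ W * (N_e' / N_e + 1 / M_R)` -/
theorem data_count (s s' n : ℕ) (R R' : Finset (Fin 3)) (f1 : Fin 3) (x0 x0' : Fin 3 → ℕ)
    (W : ℝ)
    (hst : ∀ f ∈ R', cnt f (sl s) = cnt f (sl s'))
    (hst' : ∀ f ∈ R', cnt f (se s') = cnt f (sl s')) (Y : Finset Dt)
    (c : (Fin 3 → ℕ) → (Fin 3 → ℕ) → ∀ f, ZMod (pr f ^ av (se s) f))
    (hX : ∀ d ∈ Y, d.1 ∈ XX s ∧ d.2.2.1 ∈ XX s')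
    (hfix : ∀ d ∈ Y, ∀ f, f ∉ R' → f ≠ f1 → d.1 f = x0 f ∧ d.2.2.1 f = x0' f)
    (hc : ∀ d ∈ Y, ∀ f, f ∉ R → ((d.2.2.2.2 : ℕ) : ZMod (pr f ^ av (se s) f)) = c d.1 d.2.2.1 f)
    (hy : ∀ d ∈ Y, d.2.2.2.2 + (Nj (sl s) * d.2.1 + Nj (sl s') * d.2.2.2.1) ≤ n ∧
      n < d.2.2.2.2 + (Nj (sl s) * d.2.1 + Nj (sl s') * d.2.2.2.1) + Nj (se s'))
    (hW : ((Y.image (dk f1)).card : ℝ) ≤ W) :
    (Y.card : ℝ) / ((MM pr (av (se s)) R : ℝ) * MM pr (av (se s')) R') ≤
      W * ((Nj (se s') : ℝ) / Nj (se s) + 1 / MM pr (av (se s)) R) := by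
  have h := data_count_nat s s' n R R' f1 x0 x0' hst Y c hX hfix hc hy
  have hM : (0 : ℝ) < MM pr (av (se s)) R := by exact_mod_cast MM_pos pr_prime _ R
  have hM' : (0 : ℝ) < MM pr (av (se s')) R' := by exact_mod_cast MM_pos pr_prime _ R'
  have hdpos : (0 : ℝ) < NN pr (fx (av (se s)) R) := by exact_mod_cast NN_pos pr_prime _
  have h3 : (NN pr (fx (av (se s)) R) : ℝ) * MM pr (av (se s)) R = Nj (se s) := by
    exact_mod_cast NN_fx_mul (av (se s)) R
  have hP : (∏ f ∈ R', pr f ^ cnt f (sl s')) = MM pr (av (se s')) R' := by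
    unfold MM av
    refine Finset.prod_congr rfl (fun f hf => ?_)
    rw [hst' f hf]
  rw [hP] at h
  have h4 : (Y.card : ℝ) ≤ (Y.image (dk f1)).card * (MM pr (av (se s')) R' *
      ((Nj (se s') : ℝ) / NN pr (fx (av (se s)) R) + 1)) := by
    calc (Y.card : ℝ) ≤ (((Y.image (dk f1)).card * (MM pr (av (se s')) R' *
        (Nj (se s') / NN pr (fx (av (se s)) R) + 1)) : ℕ) : ℝ) := by exact_mod_cast h
      _ ≤ _ := by
          push_cast
          have := @Nat.cast_div_le ℝ _ _ _ (Nj (se s')) (NN pr (fx (av (se s)) R))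
          gcongr
  have h5 : (Nj (se s') : ℝ) / NN pr (fx (av (se s)) R) + 1 =
      MM pr (av (se s)) R * ((Nj (se s') : ℝ) / Nj (se s) + 1 / MM pr (av (se s)) R) := by
    rw [← h3]
    field_simp
  rw [h5] at h4
  rw [div_le_iff₀ (by positivity)]
  have hnn : (0 : ℝ) ≤ MM pr (av (se s')) R' * (MM pr (av (se s)) R *
      ((Nj (se s') : ℝ) / Nj (se s) + 1 / MM pr (av (se s)) R)) := by positivity
  calc (Y.card : ℝ) ≤ (Y.image (dk f1)).card * (MM pr (av (se s')) R' *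
        (MM pr (av (se s)) R * ((Nj (se s') : ℝ) / Nj (se s) + 1 / MM pr (av (se s)) R))) := h4
    _ ≤ W * (MM pr (av (se s')) R' *
        (MM pr (av (se s)) R * ((Nj (se s') : ℝ) / Nj (se s) + 1 / MM pr (av (se s)) R))) :=
        mul_le_mul_of_nonneg_right hW hnn
    _ = _ := by ring

end Pool.Agent.Helper33.M
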