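import Pool.Agent.Helper33.M.Dat
import Pool.Agent.Helper8.MB.DatForm
import Pool.Agent.Helper45.M.Low

/-!
# T4', block M, piece D: the data count in the form `YY`, from the linear form on `Dat`
-/

namespace Pool.Agent.Helper33.M

open Finset Pool.Agent.Helper27.T4 Pool.Agent.Helper5.ET Pool.Agent.Helper3.M
open Pool.Agent.Helper8.MB (YY YY_le_Dat)

/-- **(D)** -/
theorem data_count_of {s s' b : ℕ} {f1 f0 : Fin 3} (h : Meso s s' b f1 f0) (w0 : Key → ℕ)
    (V V' : Finset ℕ) (B1 B2 R : ℕ) (hW : Win s s' f1 V V' B1 B2 R) (n : ℕ)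
    (hL : Pool.Agent.Helper45.M.LinForm s s' w0 V V' n f1) :
    ((YY s s' w0 (RR s s') (RR' s s') V V' n).card : ℝ) ≤
      C0 * II1 s s' f1 * B1 * B2 *
        ((Nj (se s') : ℝ) / Nj (se s) + ((MM pr (av (se s)) (RR s s') : ℝ))⁻¹) *
        ((MM pr (av (se s)) (RR s s') : ℝ) * MM pr (av (se s')) (RR' s s')) := by
  have h1 := YY_le_Dat s s' w0 V V' n
  have h2 := dat_card_meso h n w0 V V' (Dat s s' w0 V V' n) (Finset.Subset.refl _)
    (((C0 * II1 s s' f1 * B1 * B2 : ℕ) : ℝ)) (by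
      exact_mod_cast Pool.Agent.Helper45.M.lower_count_of h w0 V V' B1 B2 R hW n hL)
  rw [om_eq, MR_eq] at h2
  have hM : (0 : ℝ) < MM pr (av (se s)) (RR s s') := by exact_mod_cast MM_pos pr_prime _ _
  have hM' : (0 : ℝ) < MM pr (av (se s')) (RR' s s') := by exact_mod_cast MM_pos pr_prime _ _
  rw [← div_eq_mul_inv, div_le_iff₀ (by positivity)] at h2
  calc ((YY s s' w0 (RR s s') (RR' s s') V V' n).card : ℝ) ≤ (Dat s s' w0 V V' n).card := by
        exact_mod_cast h1
    _ ≤ _ := h2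
    _ = _ := by
        push_cast
        ring

end Pool.Agent.Helper33.M
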